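import Pool.Agent.helper2.BB.Spec

/-! # Project bb, module C9: choice of the parameters -/

set_option autoImplicit false

namespace BB

open Metric MeasureTheory Set Filter Topology Asymptotics
open Pool.Agent.helper37.PR

theorem C9_add (m : ℕ) (f g : ℂ → ℂ) (hf : AnalyticAt ℂ f 0) (hg : AnalyticAt ℂ g 0) :
    cf m (fun ζ => f ζ + g ζ) = cf m f + cf m g := by
  unfold cf
  have h : iteratedDeriv m (fun ζ => f ζ + g ζ) 0 = iteratedDeriv m f 0 + iteratedDeriv m g 0 :=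
    iteratedDeriv_add (f := f) (g := g) (hf.contDiffAt) (hg.contDiffAt)
  rw [h, add_div]

theorem C9_mul (m : ℕ) (c : ℂ) (f : ℂ → ℂ) : cf m (fun ζ => c * f ζ) = c * cf m f := by
  unfold cf
  have h : iteratedDeriv m (fun ζ => c * f ζ) 0 = c * iteratedDeriv m f 0 := by
    exact iteratedDeriv_const_mul_field c f
  rw [h, mul_div_assoc]

theorem C9_zero (m : ℕ) : cf m (fun _ => (0 : ℂ)) = 0 := by
  have := C9_mul m 0 (fun _ => (0 : ℂ))
  simpa using this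

theorem C9_Kb : AnalyticAt ℂ Kb 0 := by
  unfold Kb
  refine AnalyticAt.fun_div analyticAt_id ((analyticAt_const.fun_sub analyticAt_id).fun_pow 2) ?_
  simp

/-- a small parameter with positive real part -/
theorem C9_small (g : ℝ → ℂ) (a c : ℂ) (N : ℕ) (hc : 0 < c.re)
    (h : (fun κ : ℝ => g κ - a - (κ : ℂ) ^ N * c) =o[𝓝[>] 0] fun κ : ℝ => κ ^ N) :
    ∀ᶠ κ : ℝ in 𝓝[>] 0, a.re < (g κ).re := by
  have h1 := h.bound (half_pos hc)
  filter_upwards [h1, self_mem_nhdsWithin] with κ hκ hpos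
  have hpos' : 0 < κ := hpos
  have hN : 0 < κ ^ N := pow_pos hpos' N
  rw [Real.norm_of_nonneg hN.le] at hκ
  have h2 := (abs_le.mp ((Complex.abs_re_le_norm _).trans hκ)).1
  have h3 : ((κ : ℂ) ^ N * c).re = κ ^ N * c.re := by
    rw [← Complex.ofReal_pow, Complex.re_ofReal_mul]
  rw [Complex.sub_re, Complex.sub_re, h3] at h2
  have h4 : 0 < κ ^ N * c.re := mul_pos hN hc
  nlinarith

theorem C9 (hC3 : C3_stmt) (hC4 : C4_stmt) (hC5 : C5_stmt) (hC6 : C6_stmt) (hC7 : C7_stmt)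
    (hC8 : C8_stmt) : C9_stmt := by
  intro m hm
  obtain ⟨c1, c2, c3, c4⟩ := hC6 m hm
  set a2 : ℕ := Nat.choose (m + 1) 3 with ha2
  set a3 : ℕ := Nat.choose (m + 2) 5 with ha3
  set a4 : ℕ := Nat.choose (m + 3) 7 with ha4
  have h8 : a2 * a4 < a3 ^ 2 := hC8 m hm
  have ha2pos : 0 < a2 := Nat.choose_pos (by omega)
  have ha2R : (0 : ℝ) < a2 := by exact_mod_cast ha2pos
  set lam : ℝ := (a3 : ℝ) / a2 with hlam
  obtain ⟨h7a, h7b⟩ := hC7 lam
  have hK2 : AnalyticAt ℂ (fun ζ => Kb ζ ^ 2) 0 := C9_Kb.fun_pow 2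
  have hK3 : AnalyticAt ℂ (fun ζ => Kb ζ ^ 3) 0 := C9_Kb.fun_pow 3
  have hK4 : AnalyticAt ℂ (fun ζ => Kb ζ ^ 4) 0 := C9_Kb.fun_pow 4
  -- first coefficient
  set D1 : ℂ → ℂ := fun ζ => -((lam : ℂ) ^ 2) * Kb ζ ^ 2 + (2 * (lam : ℂ) * Kb ζ ^ 3 + (-1) * Kb ζ ^ 4)
    with hD1
  have hD1a : AnalyticAt ℂ D1 0 :=
    (analyticAt_const.fun_mul hK2).fun_add ((analyticAt_const.fun_mul hK3).fun_add
      (analyticAt_const.fun_mul hK4))
  have hD1c : cf m D1 = ((lam * a3 - a4 : ℝ) : ℂ) := by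
    rw [hD1, C9_add m (fun ζ => -((lam : ℂ) ^ 2) * Kb ζ ^ 2)
      (fun ζ => 2 * (lam : ℂ) * Kb ζ ^ 3 + (-1) * Kb ζ ^ 4) (analyticAt_const.fun_mul hK2)
      ((analyticAt_const.fun_mul hK3).fun_add (analyticAt_const.fun_mul hK4)),
      C9_add m (fun ζ => 2 * (lam : ℂ) * Kb ζ ^ 3) (fun ζ => (-1) * Kb ζ ^ 4)
      (analyticAt_const.fun_mul hK3) (analyticAt_const.fun_mul hK4),
      C9_mul, C9_mul, C9_mul, c2, c3, c4, hlam]
    have hne : (a2 : ℂ) ≠ 0 := by exact_mod_cast ha2pos.ne'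
    push_cast
    field_simp
    ring
  have hpos : 0 < lam * a3 - a4 := by
    rw [hlam, sub_pos, div_mul_eq_mul_div, lt_div_iff₀ ha2R]
    have : (a2 : ℝ) * a4 < a3 ^ 2 := by exact_mod_cast h8
    nlinarith
  have e1 := hC5 (fun p => DD p.1 lam (Kb p.2)) (fun _ => 0) D1 3 m (by norm_num) h7a
    analyticAt_const hD1a (Filter.Eventually.of_forall fun ζ => by
      have h := h7b (Kb ζ)
      refine h.congr_left fun δ => ?_
      simp only [hD1]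
      ring)
  have e2 := C9_small (fun δ : ℝ => cf m (fun ζ => DD δ lam (Kb ζ))) (cf m fun _ => (0 : ℂ))
    (cf m D1) 3 (by rw [hD1c, Complex.ofReal_re]; exact hpos) e1
  rw [C9_zero, Complex.zero_re] at e2
  have e3 : ∀ᶠ δ : ℝ in 𝓝[>] 0, AnalyticAt ℂ (fun ζ => DD δ lam (Kb ζ)) 0 := by
    have h1 := h7a.eventually_analyticAt
    have h2 : Tendsto (fun δ : ℝ => ((δ : ℂ), (0 : ℂ))) (𝓝[>] 0) (𝓝 (0, 0)) := by
      have : Continuous (fun δ : ℝ => ((δ : ℂ), (0 : ℂ))) :=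
        Complex.continuous_ofReal.prodMk continuous_const
      have h3 := this.tendsto 0
      simp only [Complex.ofReal_zero] at h3
      exact h3.mono_left nhdsWithin_le_nhds
    filter_upwards [h2.eventually h1] with δ hδ
    exact AnalyticAt.fun_comp (f := fun ζ : ℂ => ((δ : ℂ), ζ))
      (g := fun p : ℂ × ℂ => DD p.1 lam (Kb p.2)) hδ
      (AnalyticAt.prod analyticAt_const analyticAt_id)
  have e4 : ∀ᶠ δ : ℝ in 𝓝[>] 0, δ ≤ 1 / 3 := by
    have : ∀ᶠ δ : ℝ in 𝓝 0, δ ≤ 1 / 3 := Iic_mem_nhds (by norm_num)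
    exact this.filter_mono nhdsWithin_le_nhds
  obtain ⟨δ, hδ1, hδ2, hδ3, hδ4⟩ := (e2.and (e3.and (e4.and self_mem_nhdsWithin))).exists
  have hδ4' : 0 < δ := hδ4
  -- second expansion
  have e5 := hC5 (fun p => FF δ lam p.1 p.2) Kb (fun ζ => DD δ lam (Kb ζ)) 2 m (by norm_num)
    (hC3 δ lam hδ4' hδ3) C9_Kb hδ2 (by
      have h1 : ∀ᶠ ζ : ℂ in 𝓝[≠] 0, ‖ζ‖ < 1 := by
        have : ∀ᶠ ζ : ℂ in 𝓝 0, ‖ζ‖ < 1 := by
          have h := ball_mem_nhds (0 : ℂ) one_pos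
          filter_upwards [h] with ζ hζ
          simpa using hζ
        exact this.filter_mono nhdsWithin_le_nhds
      filter_upwards [h1, self_mem_nhdsWithin] with ζ hζ1 hζ2
      exact (hC4 δ lam ζ hδ4' hδ3 hζ2 hζ1).mono nhdsWithin_le_nhds)
  have e6 := C9_small (fun κ : ℝ => cf m (fun ζ => FF δ lam κ ζ)) (cf m Kb)
    (cf m fun ζ => DD δ lam (Kb ζ)) 2 hδ1 e5
  obtain ⟨κ, hκ⟩ := e6.exists
  refine ⟨δ, lam, κ, hδ4', hδ3, ?_⟩
  rw [c1, Complex.natCast_re] at hκ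
  exact hκ

end BB
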